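import Mathlib

set_option autoImplicit false
set_option maxRecDepth 100000

namespace Pool.Agent.Results.MP_c2f3ae_co.Counter
open Classical

/-- perfect matching of the multigraph with vertices `Vs`, edges `Es` and end map `ends` -/
def PM {W E : Type} (Vs : Set W) (Es : Set E) (ends : E → Sym2 W) (M : Set E) : Prop :=
  M ⊆ Es ∧ ∀ v ∈ Vs, ∃! e, e ∈ M ∧ v ∈ ends e

/-- matching covered multigraph -/
def MC {W E : Type} (Vs : Set W) (Es : Set E) (ends : E → Sym2 W) : Prop :=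
  Vs.Nontrivial ∧
  (∀ u ∈ Vs, ∀ v ∈ Vs, Relation.ReflTransGen (fun a b => ∃ e ∈ Es, ends e = s(a, b)) u v) ∧
  ∀ e ∈ Es, ∃ M, PM Vs Es ends M ∧ e ∈ M

variable {V : Type}

def cut (G : SimpleGraph V) (X : Set V) : Set (Sym2 V) :=
  {e | e ∈ G.edgeSet ∧ ∃ a ∈ X, ∃ b, b ∉ X ∧ e = s(a, b)}

/-- vertices, edges and end map of the contraction `G / X` (`none` is the new vertex) -/
def cV (X : Set V) : Set (Option V) := insert none (some '' Xᶜ)
def cE (G : SimpleGraph V) (X : Set V) : Set (Sym2 V) := {e | e ∈ G.edgeSet ∧ ¬ ∀ v ∈ e, v ∈ X}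
noncomputable def cEnds (X : Set V) : Sym2 V → Sym2 (Option V) :=
  Sym2.map fun v => if v ∈ X then none else some v

def Tight (G : SimpleGraph V) (X : Set V) : Prop :=
  ∀ M, PM Set.univ G.edgeSet id M → (M ∩ cut G X).ncard = 1

def Separating (G : SimpleGraph V) (X : Set V) : Prop :=
  MC (cV X) (cE G X) (cEnds X) ∧ MC (cV Xᶜ) (cE G Xᶜ) (cEnds Xᶜ)

def Brick (G : SimpleGraph V) : Prop :=
  ¬ G.Colorable 2 ∧ MC Set.univ G.edgeSet id ∧
    ∀ X : Set V, Odd X.ncard → X.ncard ≠ 1 → Xᶜ.ncard ≠ 1 → ¬ Tight G X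

def Solid (G : SimpleGraph V) : Prop :=
  MC Set.univ G.edgeSet id ∧ ∀ X : Set V, Odd X.ncard → Separating G X → Tight G X

def OddIntercyclic (G : SimpleGraph V) : Prop :=
  ∀ (u v : V) (p : G.Walk u u) (q : G.Walk v v), p.IsCycle → q.IsCycle → Odd p.length →
    Odd q.length → ∃ w, w ∈ p.support ∧ w ∈ q.support

lemma cut_compl (G : SimpleGraph V) (X : Set V) : cut G Xᶜ = cut G X := by
  ext e
  constructor
  · rintro ⟨h, a, ha, b, hb, rfl⟩
    exact ⟨h, b, by simpa using hb, a, ha, Sym2.eq_swap⟩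
  · rintro ⟨h, a, ha, b, hb, rfl⟩
    exact ⟨h, b, hb, a, by simpa using ha, Sym2.eq_swap⟩

lemma none_mem (X : Set V) (e : Sym2 V) : none ∈ cEnds X e ↔ ∃ v ∈ e, v ∈ X := by
  unfold cEnds
  rw [Sym2.mem_map]
  constructor
  · rintro ⟨v, hv, h⟩
    refine ⟨v, hv, ?_⟩
    by_contra hx
    simp [hx] at h
  · rintro ⟨v, hv, h⟩
    exact ⟨v, hv, by simp [h]⟩

lemma some_mem (X : Set V) (e : Sym2 V) (v : V) (hv : v ∉ X) : some v ∈ cEnds X e ↔ v ∈ e := by
  unfold cEnds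
  rw [Sym2.mem_map]
  constructor
  · rintro ⟨w, hw, h⟩
    by_cases hx : w ∈ X
    · simp [hx] at h
    · simp only [hx, if_false, Option.some.injEq] at h
      exact h ▸ hw
  · intro h
    exact ⟨v, h, by simp [hv]⟩

lemma mem_cut (G : SimpleGraph V) (X : Set V) (e : Sym2 V) :
    e ∈ cut G X ↔ e ∈ cE G X ∧ ∃ v ∈ e, v ∈ X := by
  constructor
  · rintro ⟨h, a, ha, b, hb, rfl⟩
    exact ⟨⟨h, fun h' => hb (h' b (by simp))⟩, a, by simp, ha⟩
  · rintro ⟨⟨h, h1⟩, a, ha, hx⟩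
    push Not at h1
    obtain ⟨b, hb, hy⟩ := h1
    refine ⟨h, a, hx, b, hy, ?_⟩
    have hne : a ≠ b := fun h => hy (h ▸ hx)
    exact ((Sym2.mem_and_mem_iff hne).1 ⟨ha, hb⟩)

lemma cut_uniq (G : SimpleGraph V) (X : Set V) (M : Set (Sym2 V))
    (h : PM (cV X) (cE G X) (cEnds X) M) : ∃! f, f ∈ M ∧ f ∈ cut G X := by
  obtain ⟨f, ⟨h1, h2⟩, h3⟩ := h.2 none (Set.mem_insert _ _)
  refine ⟨f, ⟨h1, (mem_cut G X f).2 ⟨h.1 h1, (none_mem X f).1 h2⟩⟩, ?_⟩
  rintro g ⟨g1, g2⟩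
  exact h3 g ⟨g1, (none_mem X g).2 ((mem_cut G X g).1 g2).2⟩

lemma half (G : SimpleGraph V) (X : Set V) (M N : Set (Sym2 V))
    (h : PM (cV X) (cE G X) (cEnds X) M) (h' : PM (cV Xᶜ) (cE G Xᶜ) (cEnds Xᶜ) N)
    (hf : ∀ g ∈ N, g ∈ cut G X → g ∈ M) (v : V) (hv : v ∉ X) :
    ∃! e, e ∈ M ∪ N ∧ v ∈ e := by
  obtain ⟨e, ⟨h1, h2⟩, h3⟩ := h.2 (some v) (Set.mem_insert_of_mem _ ⟨v, hv, rfl⟩)
  refine ⟨e, ⟨Or.inl h1, (some_mem X e v hv).1 h2⟩, ?_⟩
  rintro g ⟨g1 | g1, g2⟩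
  · exact h3 g ⟨g1, (some_mem X g v hv).2 g2⟩
  · refine h3 g ⟨hf g g1 ?_, (some_mem X g v hv).2 g2⟩
    rw [← cut_compl]
    exact (mem_cut G Xᶜ g).2 ⟨h'.1 g1, v, g2, hv⟩

lemma glue0 (G : SimpleGraph V) (X : Set V) (h : Separating G X) (e : Sym2 V) (he : e ∈ cE G X) :
    ∃ M, PM Set.univ G.edgeSet id M ∧ e ∈ M ∧ (M ∩ cut G X).ncard = 1 := by
  obtain ⟨M, hM, heM⟩ := h.1.2.2 e he
  obtain ⟨f, ⟨f1, f2⟩, f3⟩ := cut_uniq G X M hM
  have f4 : f ∈ cut G Xᶜ := by rw [cut_compl]; exact f2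
  obtain ⟨N, hN, hfN⟩ := h.2.2.2 f ((mem_cut G Xᶜ f).1 f4).1
  obtain ⟨g, -, g3⟩ := cut_uniq G Xᶜ N hN
  have g4 : ∀ y ∈ N, y ∈ cut G X → y = f := fun y hy hc =>
    (g3 y ⟨hy, by rw [cut_compl]; exact hc⟩).trans (g3 f ⟨hfN, f4⟩).symm
  refine ⟨M ∪ N, ⟨?_, ?_⟩, Or.inl heM, ?_⟩
  · rintro y (hy | hy)
    · exact (hM.1 hy).1
    · exact (hN.1 hy).1
  · intro v _
    by_cases hv : v ∈ X
    · have := half G Xᶜ N M hN (by rw [compl_compl]; exact hM)
        (fun y hy hc => by rw [cut_compl] at hc; rw [f3 y ⟨hy, hc⟩]; exact hfN) v (by simpa using hv)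
      rw [Set.union_comm] at this
      exact this
    · exact half G X M N hM hN (fun y hy hc => by rw [g4 y hy hc]; exact f1) v hv
  · rw [Set.ncard_eq_one]
    refine ⟨f, Set.eq_singleton_iff_unique_mem.2 ⟨⟨Or.inl f1, f2⟩, ?_⟩⟩
    rintro y ⟨hy | hy, hc⟩
    · exact f3 y ⟨hy, hc⟩
    · exact g4 y hy hc

lemma glue (G : SimpleGraph V) (X : Set V) (h : Separating G X) (e : Sym2 V) (he : e ∈ G.edgeSet) :
    ∃ M, PM Set.univ G.edgeSet id M ∧ e ∈ M ∧ (M ∩ cut G X).ncard = 1 := by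
  by_cases h1 : e ∈ cE G X
  · exact glue0 G X h e h1
  · have h2 : e ∈ cE G Xᶜ := by
      refine ⟨he, fun h3 => h1 ⟨he, fun h4 => ?_⟩⟩
      exact h3 e.out.1 (Sym2.out_fst_mem e) (h4 _ (Sym2.out_fst_mem e))
    have := glue0 G Xᶜ ⟨h.2, by rw [compl_compl]; exact h.1⟩ e h2
    rwa [cut_compl] at this

def ea (i : Fin 18) : Fin 12 := [0, 0, 0, 1, 1, 1, 2, 2, 2, 3, 4, 4, 5, 6, 6, 8, 9, 10].getD i.1 0
def eb (i : Fin 18) : Fin 12 := [6, 5, 8, 3, 7, 8, 4, 9, 3, 10, 11, 5, 7, 11, 7, 9, 10, 11].getD i.1 0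
def ed (i : Fin 18) : Sym2 (Fin 12) := s(ea i, eb i)

def G : SimpleGraph (Fin 12) where
  Adj a b := ∃ i, (ea i = a ∧ eb i = b) ∨ (ea i = b ∧ eb i = a)
  symm := ⟨fun _ _ ⟨i, h⟩ => ⟨i, h.symm⟩⟩
  loopless := ⟨by decide +kernel⟩

instance : DecidableRel G.Adj := fun a b =>
  inferInstanceAs (Decidable (∃ i, (ea i = a ∧ eb i = b) ∨ (ea i = b ∧ eb i = a)))

lemma edge_iff (e : Sym2 (Fin 12)) : e ∈ G.edgeSet ↔ ∃ i, ed i = e := by
  induction e using Sym2.ind with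
  | h a b =>
    simp only [SimpleGraph.mem_edgeSet, ed, Sym2.eq_iff]
    rfl

lemma ed_inj : Function.Injective ed := by
  intro i j
  simp only [ed, Sym2.eq_iff]
  revert i j
  decide +kernel

lemma mem_ed (v : Fin 12) (i : Fin 18) : v ∈ ed i ↔ v = ea i ∨ v = eb i := by simp [ed]

def P (j : Fin 12) (i : Fin 18) : Bool :=
  ([5793, 10900, 18082, 41554, 70945, 76052, 77900, 83234, 149644, 166161, 168009, 180298].getD j.1 0).testBit i.1

def pm (j : Fin 12) : Set (Sym2 (Fin 12)) := ed '' {i | P j i = true}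

lemma pm_ok (j : Fin 12) : PM Set.univ G.edgeSet id (pm j) := by
  have key : ∀ j v : Fin 12, ∃ i, P j i = true ∧ (v = ea i ∨ v = eb i) ∧
      ∀ k, P j k = true → (v = ea k ∨ v = eb k) → k = i := by decide +kernel
  refine ⟨?_, fun v _ => ?_⟩
  · rintro e ⟨i, -, rfl⟩
    exact (edge_iff _).2 ⟨i, rfl⟩
  · obtain ⟨i, h1, h2, h3⟩ := key j v
    refine ⟨ed i, ⟨⟨i, h1, rfl⟩, (mem_ed v i).2 h2⟩, ?_⟩
    rintro e ⟨⟨k, hk, rfl⟩, h⟩
    rw [h3 k hk ((mem_ed v k).1 h)]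

def one (a b c : Bool) : Bool := (a && !b && !c) || (!a && b && !c) || (!a && !b && c)

set_option synthInstance.maxSize 100000 in
lemma cls0 : ∀ x0 x1 x2 : Bool, one x0 x1 x2 = true →
    ∀ x5 x15 : Bool, one x2 x5 x15 = true →
    ∀ x3 x4 : Bool, one x3 x4 x5 = true →
    ∀ x12 x14 : Bool, one x4 x12 x14 = true →
    ∀ x13 : Bool, one x0 x13 x14 = true →
    ∀ x11 : Bool, one x1 x11 x12 = true →
    ∀ x6 x10 : Bool, one x6 x10 x11 = true →
    ∀ x17 : Bool, one x10 x13 x17 = true →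
    ∀ x9 x16 : Bool, one x9 x16 x17 = true →
    ∀ x7 : Bool, one x7 x15 x16 = true →
    ∀ x8 : Bool, one x3 x8 x9 = true →
    one x6 x7 x8 = true →
    ∃ j : Fin 12, List.ofFn (P j) = [x0, x1, x2, x3, x4, x5, x6, x7, x8, x9, x10, x11, x12, x13, x14, x15, x16, x17] := by
  decide +kernel

lemma cls (M : Set (Sym2 (Fin 12))) (h : PM Set.univ G.edgeSet id M) : ∃ j, M = pm j := by
  let x : Fin 18 → Bool := fun i => decide (ed i ∈ M)
  have hv : ∀ (v : Fin 12) (a b c : Fin 18), (a ≠ b ∧ a ≠ c ∧ b ≠ c ∧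
      ∀ i, (v = ea i ∨ v = eb i) ↔ (i = a ∨ i = b ∨ i = c)) → one (x a) (x b) (x c) = true := by
    rintro v a b c ⟨ab, ac, bc, hi⟩
    obtain ⟨e, ⟨h1, h2⟩, h3⟩ := h.2 v (Set.mem_univ v)
    obtain ⟨i, rfl⟩ := (edge_iff e).1 (h.1 h1)
    have u : ∀ k, (k = a ∨ k = b ∨ k = c) → (x k = true ↔ k = i) := by
      intro k hk
      simp only [x, decide_eq_true_eq]
      constructor
      · intro hk'
        exact ed_inj (h3 _ ⟨hk', (mem_ed v k).2 ((hi k).2 hk)⟩)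
      · rintro rfl
        exact h1
    have ua := u a (by simp)
    have ub := u b (by simp)
    have uc := u c (by simp)
    have hi' := (hi i).1 ((mem_ed v i).1 h2)
    rcases hi' with rfl | rfl | rfl
    · have e1 := ua.2 rfl
      have e2 : x b = false := by simpa [ab.symm] using ub
      have e3 : x c = false := by simpa [ac.symm] using uc
      rw [e1, e2, e3]; rfl
    · have e1 := ub.2 rfl
      have e2 : x a = false := by simpa [ab] using ua
      have e3 : x c = false := by simpa [bc.symm] using uc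
      rw [e1, e2, e3]; rfl
    · have e1 := uc.2 rfl
      have e2 : x a = false := by simpa [ac] using ua
      have e3 : x b = false := by simpa [bc] using ub
      rw [e1, e2, e3]; rfl
  obtain ⟨j, hj⟩ := cls0
    (x 0)
    (x 1)
    (x 2)
    (hv 0 0 1 2 (by decide))
    (x 5)
    (x 15)
    (hv 8 2 5 15 (by decide))
    (x 3)
    (x 4)
    (hv 1 3 4 5 (by decide))
    (x 12)
    (x 14)
    (hv 7 4 12 14 (by decide))
    (x 13)
    (hv 6 0 13 14 (by decide))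
    (x 11)
    (hv 5 1 11 12 (by decide))
    (x 6)
    (x 10)
    (hv 4 6 10 11 (by decide))
    (x 17)
    (hv 11 10 13 17 (by decide))
    (x 9)
    (x 16)
    (hv 10 9 16 17 (by decide))
    (x 7)
    (hv 9 7 15 16 (by decide))
    (x 8)
    (hv 3 3 8 9 (by decide))
    (hv 2 6 7 8 (by decide))
  have e1 : List.ofFn x = [x 0, x 1, x 2, x 3, x 4, x 5, x 6, x 7, x 8, x 9, x 10, x 11, x 12, x 13, x 14, x 15, x 16, x 17] := rfl
  have e2 : P j = x := List.ofFn_injective (hj.trans e1.symm)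
  refine ⟨j, Set.ext fun e => ⟨fun he => ?_, ?_⟩⟩
  · obtain ⟨i, rfl⟩ := (edge_iff e).1 (h.1 he)
    exact ⟨i, by rw [e2]; simpa [x] using he, rfl⟩
  · rintro ⟨i, hi, rfl⟩
    rw [e2] at hi
    simpa [x] using hi

def cnt (j : Fin 12) (y : List Bool) : ℕ :=
  (Finset.univ.filter fun i : Fin 18 =>
    (P j i && (y.getD (ea i).1 false != y.getD (eb i).1 false)) = true).card

noncomputable def ind (X : Set (Fin 12)) : List Bool := List.ofFn fun v => decide (v ∈ X)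

lemma ind_get (X : Set (Fin 12)) (v : Fin 12) : (ind X).getD v.1 false = decide (v ∈ X) := by
  unfold ind
  rw [List.getD_eq_getElem _ _ (by simp)]
  simp only [List.getElem_ofFn]

lemma cnt_eq (j : Fin 12) (X : Set (Fin 12)) : (pm j ∩ cut G X).ncard = cnt j (ind X) := by
  unfold cnt
  rw [← Set.ncard_coe_finset, ← Set.ncard_image_of_injective _ ed_inj]
  congr 1
  ext e
  simp only [ind_get, Finset.coe_filter, Finset.mem_univ, true_and, Set.mem_inter_iff, pm,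
    Set.mem_image, Set.mem_setOf_eq, Bool.and_eq_true, bne_iff_ne, ne_eq, decide_eq_decide]
  constructor
  · rintro ⟨⟨i, hi, rfl⟩, -, a, ha, b, hb, h⟩
    refine ⟨i, ⟨hi, ?_⟩, rfl⟩
    simp only [ed, Sym2.eq_iff] at h
    rcases h with ⟨h1, h2⟩ | ⟨h1, h2⟩ <;> rw [h1, h2] <;> tauto
  · rintro ⟨i, ⟨hi, h⟩, rfl⟩
    refine ⟨⟨i, hi, rfl⟩, (edge_iff _).2 ⟨i, rfl⟩, ?_⟩
    by_cases ha : ea i ∈ X
    · exact ⟨ea i, ha, eb i, by tauto, rfl⟩
    · exact ⟨eb i, by tauto, ea i, ha, Sym2.eq_swap⟩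

def chk (y : List Bool) : Bool :=
  if y.count true = 1 ∨ y.count false = 1 then decide (∀ j, cnt j y = 1)
  else decide (∃ i, ∀ j, P j i = true → cnt j y ≠ 1)

lemma chk0 : ∀ y0 y1 y2 y3 y4 y5 y6 y7 y8 y9 y10 y11 : Bool,
    chk [y0, y1, y2, y3, y4, y5, y6, y7, y8, y9, y10, y11] = true := by decide +kernel

lemma chk1 (X : Set (Fin 12)) : chk (ind X) = true := chk0 _ _ _ _ _ _ _ _ _ _ _ _

lemma count_ofFn {n : ℕ} (f : Fin n → Bool) (b : Bool) :
    (List.ofFn f).count b = {v | f v = b}.ncard := by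
  have : {v | f v = b} = ((Finset.univ.filter fun v => f v = b : Finset (Fin n)) : Set (Fin n)) := by
    ext v; simp
  rw [this, Set.ncard_coe_finset, List.ofFn_eq_map, List.count_eq_countP, List.countP_map,
    List.countP_eq_length_filter]
  simp only [Finset.card, Finset.filter, Finset.univ, Fintype.elems, Multiset.filter_coe,
    Multiset.coe_card]
  congr 2

lemma cT (X : Set (Fin 12)) : (ind X).count true = X.ncard := by
  unfold ind; rw [count_ofFn]; congr 1; ext v; simp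

lemma cF (X : Set (Fin 12)) : (ind X).count false = Xᶜ.ncard := by
  unfold ind; rw [count_ofFn]; congr 1; ext v; simp

lemma cov : ∀ i : Fin 18, ∃ j, P j i = true := by decide +kernel

lemma mc : MC Set.univ G.edgeSet id := by
  refine ⟨⟨0, trivial, 1, trivial, by decide⟩, ?_, ?_⟩
  · intro u _ v _
    have hc : G.Connected := by decide +kernel
    have := (SimpleGraph.reachable_iff_reflTransGen u v).1 (hc.preconnected u v)
    clear hc
    induction this with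
    | refl => exact Relation.ReflTransGen.refl
    | tail _ h ih => exact (ih trivial).tail ⟨s(_, _), h, rfl⟩
  · intro e he
    obtain ⟨i, rfl⟩ := (edge_iff e).1 he
    obtain ⟨j, hj⟩ := cov i
    exact ⟨pm j, pm_ok j, i, hj, rfl⟩

def c1 : G.Walk 0 0 :=
  .cons (v := 5) (by decide) (.cons (v := 4) (by decide) (.cons (v := 11) (by decide)
    (.cons (v := 6) (by decide) (.cons (v := 0) (by decide) .nil))))

def c2 : G.Walk 1 1 :=
  .cons (v := 8) (by decide) (.cons (v := 9) (by decide) (.cons (v := 2) (by decide)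
    (.cons (v := 3) (by decide) (.cons (v := 1) (by decide) .nil))))

theorem result : ∃ (n : ℕ) (H : SimpleGraph (Fin n)), (∀ v, (H.neighborSet v).ncard = 3) ∧
    Brick H ∧ Solid H ∧ ¬ OddIntercyclic H := by
  refine ⟨12, G, ?_, ⟨?_, mc, ?_⟩, ⟨mc, ?_⟩, ?_⟩
  · intro v
    rw [← SimpleGraph.coe_neighborFinset, Set.ncard_coe_finset]
    revert v
    decide +kernel
  · rintro ⟨c⟩
    have a := c.valid (v := 0) (w := 5) (by decide)
    have b := c.valid (v := 5) (w := 4) (by decide)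
    have d := c.valid (v := 4) (w := 11) (by decide)
    have e := c.valid (v := 11) (w := 6) (by decide)
    have f := c.valid (v := 6) (w := 0) (by decide)
    omega
  · intro X _ h1 h2 ht
    have h := chk1 X
    unfold chk at h
    rw [cT, cF, if_neg (by tauto), decide_eq_true_eq] at h
    obtain ⟨i, hi⟩ := h
    obtain ⟨j, hj⟩ := cov i
    exact hi j hj ((cnt_eq j X).symm.trans (ht _ (pm_ok j)))
  · intro X _ hs M hM
    have h := chk1 X
    unfold chk at h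
    split_ifs at h with h0
    · obtain ⟨j, rfl⟩ := cls M hM
      rw [cnt_eq]
      exact (decide_eq_true_eq.mp h) j
    · obtain ⟨i, hi⟩ := decide_eq_true_eq.mp h
      obtain ⟨N, hN, h1, h2⟩ := glue G X hs (ed i) ((edge_iff _).2 ⟨i, rfl⟩)
      obtain ⟨j, rfl⟩ := cls N hN
      obtain ⟨k, hk, h3⟩ := h1
      rw [ed_inj h3] at hk
      exact absurd ((cnt_eq j X).symm.trans h2) (hi j hk)
  · intro h
    obtain ⟨w, h1, h2⟩ := h 0 1 c1 c2 (by simp [c1, SimpleGraph.Walk.isCycle_def,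
      SimpleGraph.Walk.isTrail_def]) (by simp [c2, SimpleGraph.Walk.isCycle_def,
      SimpleGraph.Walk.isTrail_def]) (by decide) (by decide)
    revert w
    decide

end Pool.Agent.Results.MP_c2f3ae_co.Counter
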